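import Pool.Agent.H18.TXB.Targets
import Pool.Agent.H33.TX.COL

/-!
# Row COB: backward orbits which start over a line, in a totally invariant orbit closure
(backward version of `Pool.Agent.H33.TX.pf_COL`)
-/

set_option autoImplicit false
set_option linter.unusedSectionVars false

open MvPolynomial
open Pool.Agent.H12.ZD (pmap)
open Pool.Agent.H18.HIT Pool.Agent.H18.HX Pool.Agent.H18.VZ

namespace Pool.Agent.H18.VP.H42COB

/-! ## Iterates of the flow -/

/-- the composition of maps which are the identity modulo `p` -/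
theorem fl_comp {N : ℕ} (p : Pl Qb) (H H₁ : Tup N (O p)) :
    comp (fl p H) (fl p H₁) = fl p (fun i => H₁ i + aeval (fl p H₁) (H i)) := by
  funext i
  change aeval (fl p H₁) (X i + C ((p : ℕ) : O p) * H i) = _
  rw [map_add, map_mul, aeval_X, aeval_C, algebraMap_eq]
  change X i + C ((p : ℕ) : O p) * H₁ i + _ = X i + C ((p : ℕ) : O p) *
    (H₁ i + aeval (fl p H₁) (H i))
  ring

/-- the iterates of a map which is the identity modulo `p` -/
theorem fl_it {N : ℕ} (p : Pl Qb) (H : Tup N (O p)) (m : ℕ) :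
    ∃ H' : Tup N (O p), it (fl p H) m = fl p H' := by
  induction m with
  | zero =>
    refine ⟨fun _ => 0, ?_⟩
    rw [it_zero]
    funext i
    change X i = X i + C ((p : ℕ) : O p) * 0
    rw [mul_zero, add_zero]
  | succ m ih =>
    obtain ⟨H', hH'⟩ := ih
    rw [it_succ, hH', fl_comp]
    exact ⟨_, rfl⟩

/-- the iterates of a map which is the identity modulo `p`, over the algebraic numbers -/
theorem flQ_it {N : ℕ} (p : Pl Qb) (H : Tup N (O p)) (m : ℕ) :
    ∃ H' : Tup N (O p), flQ p H' = it (flQ p H) m := by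
  obtain ⟨H', hH'⟩ := fl_it p H m
  refine ⟨H', ?_⟩
  have h3 : ∀ n, it (flQ p H) n = fun i => map (O p).subtype (it (fl p H) n i) := by
    intro n
    induction n with
    | zero =>
      funext i
      rw [it_zero, it_zero, map_X]
    | succ n ih =>
      funext i
      rw [it_succ, it_succ]
      change aeval (it (flQ p H) n) (flQ p H i) =
        map (O p).subtype (aeval (it (fl p H) n) (fl p H i))
      rw [ih]
      have h4 : ∀ q : Po N (O p), aeval (fun i => map (O p).subtype (it (fl p H) n i) :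
          Tup N Qb) (map (O p).subtype q) =
          map (O p).subtype (aeval (it (fl p H) n) q) := by
        intro q
        induction q using MvPolynomial.induction_on with
        | C a =>
          rw [map_C, aeval_C, aeval_C, algebraMap_eq, algebraMap_eq, map_C]
        | add a b ha hb => rw [map_add, map_add, map_add, map_add, ha, hb]
        | mul_X a i ha => rw [map_mul, map_mul, map_mul, map_mul, ha, map_X, aeval_X, aeval_X]
      exact h4 _
  rw [h3 m]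
  funext i
  rw [hH']
  rfl

/-- the flow for a multiple of the exponent -/
theorem flo_it {N d : ℕ} {P b : Po (N + 1) Qb} {F : Tup (N + 1) Qb} {p : Pl Qb}
    {P₀ : Po (N + 1) (O p)} {k : ℕ} {a : Fin (N + 1) → O p} {H : Tup (N + 1) (O p)}
    (h : Flo P b F d p P₀ k a H) {m : ℕ} (hm : 1 ≤ m) :
    ∃ H' : Tup (N + 1) (O p), Flo P b F d p P₀ (k * m) a H' := by
  obtain ⟨H', hH'⟩ := flQ_it p H m
  refine ⟨H', h.hp, Nat.mul_pos h.hk hm, h.mon, h.map, h.zero, h.der, ?_, ?_, h.avo⟩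
  · funext i
    apply MvPolynomial.funext
    intro x
    have hlt : ∀ y : Fin (N + 1) → Qb, pmap (lt (cO a) (((p : ℕ) : Qb) ^ 2)) y =
        fun i => cO a i + ((p : ℕ) : Qb) ^ 2 * y i := by
      intro y
      funext i
      simp [pmap, lt]
    have h1 : pmap (comp (it F (k * m)) (lt (cO a) (((p : ℕ) : Qb) ^ 2))) x =
        pmap (comp (lt (cO a) (((p : ℕ) : Qb) ^ 2)) (flQ p H')) x := by
      rw [pmap_comp, pmap_comp, hlt, hlt, pmap_it, conj_orb h, hH', pmap_it]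
    exact congrFun h1 i
  · rw [hH', pow_mul]
    exact (deg_it_le _ hm).trans (Nat.pow_le_pow_left h.deg m)

/-! ## The core -/

/-- the core of the construction for the backward orbits over a line -/
theorem core_back (hALX : T_ALX) (hPEG : T_PEG) (hPRX : T_PRX Qb)
    (hHNX : T_HNX Qb) (hNRX : T_NRX) (hINC : T_INC Qb) (hHIL : Pool.Agent.H8.TX.T_HIL)
    {N r d E : ℕ} {P b : Po (N + 1) Qb}
    {F : Tup (N + 1) Qb} {p : Pl Qb} {P₀ : Po (N + 1) (O p)} {k : ℕ} {a : Fin (N + 1) → O p}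
    {H : Tup (N + 1) (O p)} (hP : Hyp P r) (h : Flo P b F d p P₀ k a H)
    (hs : Slf (Ideal.span {P}) F) (hc : Cvi (Ideal.span {P}) (it F k) E)
    {θ Δ : Po (N + 1) Qb} (hB : Bas P (it F k) E θ Δ) {g : Po N Qb} (hg : g ≠ 0) :
    ∃ y : Fin N → ℤ,
      eval (fun i => cO a (Fin.succ i) + ((p : ℕ) : Qb) ^ 2 * (y i : Qb)) g ≠ 0 ∧
      ∀ c₁ : Po N Qb, c₁ ≠ 0 → ∃ b' : Fin N → ℤ, eval (Pool.Agent.H18.HIT.cZ b') c₁ ≠ 0 ∧
      ∀ (s : Finset Qb) (M₀ : ℕ), ∃ (t : ℤ) (z x : Fin (N + 1) → O p), (M₀ : ℤ) < |t| ∧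
        (∀ i : Fin N, cO z i.succ = ((y i + t * b' i : ℤ) : Qb)) ∧
        eval (cO z) (pp P a) = 0 ∧
        eval (cO z) (aeval (lt (cO a) (((p : ℕ) : Qb) ^ 2)) (up g)) ≠ 0 ∧
        (∀ c : Fin E → Po (N + 1) Qb,
          (∑ i : Fin E, (aeval (lt (cO a) (((p : ℕ) : Qb) ^ 2)) θ) ^ (i : ℕ) *
            aeval (flQ p H) (c i)) ∈ van (flQ p H) (cO z) →
          ∀ i, c i ∈ van (flQ p H) (cO z)) ∧
        pmap (fl p H) x = z ∧ (∀ c ∈ Ideal.span {pp P a}, c ∈ van (flQ p H) (cO z)) ∧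
        ∀ x' z' : Fin (N + 1) → Qb, eval x' (pp P a) = 0 → pmap (flQ p H) x' = z' →
          (∀ i : Fin N, z' i.succ = cO z i.succ) →
          ∃ σ : Qb ≃+* Qb, (∀ q ∈ s, σ q = q) ∧ (∀ i, σ (cO a i) = cO a i) ∧
            (∀ i, σ (cO z i) = z' i) ∧ ∀ i, σ (cO x i) = x' i := by
  classical
  obtain ⟨L, hL⟩ : ∃ L : Po (N + 1) Qb →ₐ[Qb] Po (N + 1) Qb,
    L = aeval (lt (cO a) (((p : ℕ) : Qb) ^ 2)) := ⟨_, rfl⟩
  have hLd : ∀ q, pp P a ∣ L q ↔ P ∣ q := fun q => by rw [hL]; exact pp_dvd P a q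
  have hprime := isPrime_span (pp_irr hP.irr a)
  have hpr := (pp_irr hP.irr a).prime
  have hsG := slf_pp h hs
  obtain ⟨hind, halg⟩ := hALX N Qb (pp P a) (flQ p H) (pp_irr hP.irr a) (pp_mon hP.mon a) hsG
  have hind' : ∀ q : Po N Qb, aeval (fun j : Fin N => flQ p H j.succ) q ∈ Ideal.span {pp P a} →
      q = 0 := fun q hq => hind q (Ideal.mem_span_singleton.mp hq)
  have halg' : ∀ i, ∃ Q : Polynomial (Po N Qb), Q ≠ 0 ∧
      evg (fun j : Fin N => flQ p H j.succ) (X i) Q ∈ Ideal.span {pp P a} := by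
    intro i
    obtain ⟨Q, hQ, hQ'⟩ := halg i
    exact ⟨Q, hQ, Ideal.mem_span_singleton.mpr hQ'⟩
  obtain ⟨θ₁, Φ, Δ₁, R, hmon, -, hroot, hΔ₁, hcoord⟩ := hPEG (N + 1) N Qb (Ideal.span {pp P a})
    (fun j => flQ p H j.succ) hind' halg'
  obtain ⟨cG, hcG, hcG'⟩ := cvi_pp h hc
  have hcc : ¬ pp P a ∣ cG * L Δ := by
    intro hd
    rcases hpr.dvd_or_dvd hd with hd | hd
    · exact hcG (Ideal.mem_span_singleton.mpr hd)
    · exact hB.ne ((hLd Δ).mp hd)
  obtain ⟨c', A, hc'0, hc'⟩ := hNRX N Qb (pp P a) (cG * L Δ) (pp_irr hP.irr a)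
    (pp_mon hP.mon a) hcc
  -- `g` in the coordinates of the disc
  set gα : Po N Qb := aeval (fun j : Fin N => C (cO a j.succ) + C (((p : ℕ) : Qb) ^ 2) * X j) g
    with hgα
  have hgαe : ∀ w : Fin N → Qb, eval w gα =
      eval (fun i => cO a (Fin.succ i) + ((p : ℕ) : Qb) ^ 2 * w i) g := by
    intro w
    have h1 : ((eval w).comp (aeval (fun j : Fin N => C (cO a j.succ) +
        C (((p : ℕ) : Qb) ^ 2) * X j) : Po N Qb →ₐ[Qb] Po N Qb).toRingHom) =
        eval (fun i => cO a (Fin.succ i) + ((p : ℕ) : Qb) ^ 2 * w i) := by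
      apply MvPolynomial.ringHom_ext
      · intro q
        simp
      · intro i
        simp
    exact DFunLike.congr_fun h1 g
  have hgα0 : gα ≠ 0 := by
    intro h0
    apply hg
    apply MvPolynomial.funext
    intro w
    have h1 := hgαe (fun i => (((p : ℕ) : Qb) ^ 2)⁻¹ * (w i - cO a i.succ))
    rw [h0, map_zero] at h1
    have h2 : (fun i : Fin N => cO a (Fin.succ i) + ((p : ℕ) : Qb) ^ 2 *
        ((((p : ℕ) : Qb) ^ 2)⁻¹ * (w i - cO a i.succ))) = w := by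
      funext i
      rw [← mul_assoc, mul_inv_cancel₀ (p_ne p)]
      ring
    rw [h2] at h1
    rw [map_zero]
    exact h1.symm
  obtain ⟨y, hy, hyb⟩ := hHIL (N + 1) N (Ideal.span {pp P a})
    (fun j => flQ p H j.succ)
    (Finset.univ.image (flQ p H)) (c' * Δ₁ * gα) hind' halg'
    (mul_ne_zero (mul_ne_zero hc'0 hΔ₁) hgα0)
  rw [map_mul] at hy
  refine ⟨y, ?_, fun c₁ hc₁ => ?_⟩
  · have h1 := right_ne_zero_of_mul hy
    rw [hgαe] at h1
    exact h1
  obtain ⟨b', hb', hbt⟩ := hyb c₁ hc₁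
  refine ⟨b', hb', fun s M₀ => ?_⟩
  obtain ⟨t, ht, hwt, hgal⟩ := hbt (s ∪ Finset.univ.image (cO a)) M₀
  set w : Fin N → ℤ := fun i => y i + t * b' i with hw
  rw [map_mul, map_mul] at hwt
  obtain ⟨u, hu⟩ := hHNX N p P₀ a h.mon h.zero h.der (fun j => ((w j : ℤ) : O p))
  set z : Fin (N + 1) → O p := Fin.cons u (fun j => ((w j : ℤ) : O p)) with hz
  have hzs : ∀ j : Fin N, cO z j.succ = (w j : Qb) := by
    intro j
    change ((z j.succ : O p) : Qb) = _
    rw [hz, Fin.cons_succ]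
    exact map_intCast (O p).subtype (w j)
  have hzs' : (fun j : Fin N => cO z j.succ) = Pool.Agent.H18.HIT.cZ w := funext hzs
  have hzP : eval (cO z) (pp P a) = 0 := by
    rw [eval_pp, ← h.map]
    have h1 : (fun i => cO a i + ((p : ℕ) : Qb) ^ 2 * cO z i) =
        cO (fun i => a i + ((p : ℕ) : O p) ^ 2 * z i) := by
      funext i
      change _ = (O p).subtype (a i + ((p : ℕ) : O p) ^ 2 * z i)
      rw [map_add, map_mul, map_pow, coe_p]
      rfl
    rw [h1, eval_cO, hu]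
    rfl
  have hzer : Zer (Ideal.span {pp P a}) (cO z) := zer_span.mpr hzP
  have hle : ∀ c ∈ Ideal.span {pp P a}, c ∈ van (flQ p H) (cO z) := by
    intro c hc n
    exact zer_iterate hsG.inv hzer n c hc
  obtain ⟨x, hx, hxvan⟩ := hPRX (N + 1) N p H Fin.succ z θ₁ Φ Δ₁ R h.hp hmon (hle _ hroot)
    (fun i => hle _ (hcoord i)) (by
      rw [hzs']
      exact right_ne_zero_of_mul (left_ne_zero_of_mul hwt))
  have hc'w : eval (Pool.Agent.H18.HIT.cZ w) c' ≠ 0 :=
    left_ne_zero_of_mul (left_ne_zero_of_mul hwt)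
  -- the values at the points of the hypersurface over `w`
  have hover : ∀ z' : Fin (N + 1) → Qb, eval z' (pp P a) = 0 →
      (∀ i : Fin N, z' i.succ = (w i : Qb)) → eval z' cG ≠ 0 ∧ eval z' (L Δ) ≠ 0 := by
    intro z' hz'P hz'w
    have hcall : eval z' (cG * L Δ) ≠ 0 := by
      intro h0
      apply hc'w
      obtain ⟨B, hB⟩ := hc'
      have h1 := congrArg (eval z') hB
      rw [map_sub, map_mul (eval z') (cG * L Δ) A,
        map_mul (eval z') (pp P a) B, h0, hz'P, zero_mul, zero_mul, sub_zero, up,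
        eval_rename] at h1
      have h2 : (z' ∘ Fin.succ) = Pool.Agent.H18.HIT.cZ w := funext hz'w
      rw [h2] at h1
      exact h1
    rw [map_mul] at hcall
    exact ⟨left_ne_zero_of_mul hcall, right_ne_zero_of_mul hcall⟩
  obtain ⟨hcGz, hΔz⟩ := hover (cO z) hzP hzs
  obtain ⟨S, hS, hS'⟩ := hcG' (cO z) hzer hcGz
  have hxG : pmap (flQ p H) (cO x) = cO z := by
    rw [← hx]
    exact pmap_cO (fl p H) x
  have hxz : Zer (Ideal.span {pp P a}) (cO x) :=
    zer_span.mpr (hxvan _ (hle _ (Ideal.mem_span_singleton_self _)))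
  -- transport from `x` to any other preimage of a point over `w`
  have hgalG : ∀ x' z' : Fin (N + 1) → Qb, Zer (Ideal.span {pp P a}) x' →
      pmap (flQ p H) x' = z' → (∀ i : Fin N, z' i.succ = (w i : Qb)) →
      ∃ σ : Qb ≃+* Qb, (∀ i, MvPolynomial.map (σ : Qb →+* Qb) (flQ p H i) =
        flQ p H i) ∧ (∀ q ∈ s, σ q = q) ∧ (∀ i, σ (cO a i) = cO a i) ∧
        (∀ i, σ (cO z i) = z' i) ∧ ∀ i, σ (cO x i) = x' i := by
    intro x' z' h1 h2 hz'w
    obtain ⟨σ, hσ1, hσa, hσ2⟩ := hgal (cO x) x' hxz h1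
      (fun j => by
        have h3 : eval (cO x) (flQ p H j.succ) = cO z j.succ := congrFun hxG j.succ
        rw [h3]
        exact hzs j)
      (fun j => by
        have h3 : eval x' (flQ p H j.succ) = z' j.succ := congrFun h2 j.succ
        rw [h3]
        exact hz'w j)
    have hσG : ∀ i, MvPolynomial.map (σ : Qb →+* Qb) (flQ p H i) = flQ p H i :=
      fun i => hσ1 _ (Finset.mem_image_of_mem _ (Finset.mem_univ i))
    refine ⟨σ, hσG, fun q hq => hσa q (Finset.mem_union_left _ hq),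
      fun i => hσa _ (Finset.mem_union_right _ (Finset.mem_image_of_mem _ (Finset.mem_univ i))),
      fun i => ?_, hσ2⟩
    have h3 : cO z i = eval (cO x) (flQ p H i) := (congrFun hxG i).symm
    have h4 : x' = fun i => (σ : Qb →+* Qb) (cO x i) := funext fun i => (hσ2 i).symm
    have h5 : σ (eval (cO x) (flQ p H i)) = eval x' (flQ p H i) := by
      have h6 := Pool.Agent.H8.HZ.eval_map_apply (σ : Qb →+* Qb) (flQ p H i) (cO x)
      rw [hσG, ← h4] at h6
      exact h6.symm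
    rw [h3, h5]
    exact congrFun h2 i
  have hgal' : ∀ P' ∈ S, ∃ σ : Qb ≃+* Qb, (∀ i, MvPolynomial.map (σ : Qb →+* Qb) (flQ p H i) =
      flQ p H i) ∧ (∀ i, σ (cO z i) = cO z i) ∧ ∀ i, σ (cO x i) = P' i := by
    intro P' hP'
    obtain ⟨h1, h2⟩ := hS' P' hP'
    obtain ⟨σ, hσ1, -, -, hσ2, hσ3⟩ := hgalG P' (cO z) h1 h2 hzs
    exact ⟨σ, hσ1, hσ2, hσ3⟩
  -- `θ` separates the fibre
  have hLev : ∀ (q : Po (N + 1) Qb) (y : Fin (N + 1) → Qb), eval y (L q) =
      eval (fun i => cO a i + ((p : ℕ) : Qb) ^ 2 * y i) q := by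
    intro q y
    rw [hL, eval_lt]
  have hsep : ∀ x ∈ S, ∀ y ∈ S, eval x (L θ) = eval y (L θ) → x = y := by
    intro x hx y hy hxy
    obtain ⟨hx1, hx2⟩ := hS' x hx
    obtain ⟨hy1, hy2⟩ := hS' y hy
    have hxP := (eval_pp P a x).mp (zer_span.mp hx1)
    have hyP := (eval_pp P a y).mp (zer_span.mp hy1)
    rw [hLev, hLev] at hxy
    have hTx : pmap (it F k) (fun i => cO a i + ((p : ℕ) : Qb) ^ 2 * x i) =
        fun i => cO a i + ((p : ℕ) : Qb) ^ 2 * cO z i := by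
      rw [pmap_it, conj_pt h, hx2]
    have hTy : pmap (it F k) (fun i => cO a i + ((p : ℕ) : Qb) ^ 2 * y i) =
        fun i => cO a i + ((p : ℕ) : Qb) ^ 2 * cO z i := by
      rw [pmap_it, conj_pt h, hy2]
    rw [hLev] at hΔz
    funext l
    obtain ⟨M, c, Q, hQ⟩ := hB.gen (X l)
    have e1 := congrArg (eval (fun i => cO a i + ((p : ℕ) : Qb) ^ 2 * x i)) hQ
    have e2 := congrArg (eval (fun i => cO a i + ((p : ℕ) : Qb) ^ 2 * y i)) hQ
    rw [map_sub, map_mul, map_pow, eval_aeval, map_sum, map_mul, hxP, zero_mul, hTx,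
      eval_X] at e1
    rw [map_sub, map_mul, map_pow, eval_aeval, map_sum, map_mul, hyP, zero_mul, hTy,
      eval_X] at e2
    simp only [map_mul, map_pow, eval_aeval] at e1 e2
    rw [hTx] at e1
    rw [hTy, ← hxy] at e2
    have e3 := sub_eq_zero.mp e1
    have e4 := sub_eq_zero.mp e2
    rw [← e4] at e3
    have e5 := mul_left_cancel₀ (pow_ne_zero M hΔz) e3
    exact mul_left_cancel₀ (p_ne p) (add_left_cancel e5)
  refine ⟨t, z, x, ht, hzs, hzP, ?_, ?_, hx, hle, ?_⟩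
  · have h1 : eval (cO z) (aeval (lt (cO a) (((p : ℕ) : Qb) ^ 2)) (up g)) =
        eval (Pool.Agent.H18.HIT.cZ w) gα := by
      rw [eval_lt, up, eval_rename, hgαe, ← hzs']
      rfl
    rw [h1]
    exact right_ne_zero_of_mul hwt
  · rw [← hL]
    exact str2 (flQ p H) (cO z) (cO x) (L θ) E S hS hxG
      (fun n => by rw [flQ_iterate]; exact jac_fl_ne p H _)
      (jac_fl_ne p H x) hxvan
      (fun h' q hhq hh => hINC (N + 1) p H z h' q h.hp hhq hh) hgal' hsep
  · intro x' z' hx'P hx'z hz'z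
    have hz'w : ∀ i : Fin N, z' i.succ = (w i : Qb) := fun i => by rw [hz'z, hzs]
    obtain ⟨σ, -, hσs, hσa, hσz, hσx⟩ := hgalG x' z' (zer_span.mpr hx'P) hx'z hz'w
    exact ⟨σ, hσs, hσa, hσz, hσx⟩

/-- the backward orbit stays in the closure of the forward orbit -/
theorem van_back (hPRW : Pool.Agent.H18.TXB.T_PRW Qb) {N : ℕ} (p : Pl Qb) (hp : 3 ≤ (p : ℕ))
    (H : Tup N (O p)) (zz : ℕ → Fin N → O p) (hzz : ∀ i, pmap (fl p H) (zz (i + 1)) = zz i)
    (i : ℕ) : ∀ q ∈ van (flQ p H) (cO (zz 0)), q ∈ van (flQ p H) (cO (zz i)) := by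
  induction i with
  | zero => exact fun q hq => hq
  | succ i ih =>
    intro q hq
    have h1 := ih q hq
    have h2 := hPRW N p H (zz i) (zz (i + 1)) hp (hzz i) q h1
    intro n
    cases n with
    | zero => exact h2
    | succ n =>
      have h3 : pmap (flQ p H) (cO (zz (i + 1))) = cO (zz i) := by
        rw [← hzz i]
        exact pmap_cO (fl p H) (zz (i + 1))
      rw [Function.iterate_succ_apply, h3]
      exact h1 n

theorem cob (hPRY : Pool.Agent.H18.TXB.T_PRY Qb) (hPRW : Pool.Agent.H18.TXB.T_PRW Qb)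
    (hHIL : Pool.Agent.H8.TX.T_HIL) : Pool.Agent.H18.TXB.T_COB := by
  have hina : Pool.Agent.H18.VP.T_INA Qb := Pool.Agent.H18.VP.pf_INA
  have hinb : Pool.Agent.H18.VP.T_INB Qb :=
    Pool.Agent.H18.VP.pf_INB Pool.Agent.H18.VP.pf_BIN
  have hinc : Pool.Agent.H18.VP.T_INC Qb := Pool.Agent.H18.VP.pf_INC hina hinb
  have hprm : Pool.Agent.H18.VP.T_PRM Qb := Pool.Agent.H18.VP.pf_PRM hina hinc
  have hprx : Pool.Agent.H18.VP.T_PRX Qb := Pool.Agent.H18.VP.pf_PRX hina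
  have hgdx : Pool.Agent.H18.VP.T_GDX Qb := Pool.Agent.H18.VP.pf_GDX Pool.Agent.H63.VP.pf_PLC
    Pool.Agent.H18.VP.H33COL.ftd All.wpo Pool.Agent.H30.HX.pf_IND Pool.Agent.H49.HX.pf_MPW
    All.fry All.nds Pool.Agent.H18.VP.pf_LFX
  intro N r d m P b F hN hm hP hrd hF hs hb hPb
  obtain ⟨F', W, hF', hcong, hW, hPW⟩ := All.chh N r d Qb P F hN hP hrd hF hs
  have hcong' : ∀ i, F' i - F i ∈ Ideal.span {P} := fun i =>
    Ideal.mem_span_singleton.mpr (hcong i)
  have hs' : Slf (Ideal.span {P}) F' := hs.congr hcong'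
  obtain ⟨p, P₀, k₀, a, H₀, h₀⟩ := exists_flo hgdx All.jcx W hN hP hF' hs' hW hPW hb hPb
  obtain ⟨H, h⟩ := flo_it h₀ hm
  obtain ⟨k, hk⟩ : ∃ k, k = k₀ * m := ⟨_, rfl⟩
  rw [← hk] at h
  refine ⟨k, fun i => cO a i.succ, ((p : ℕ) : Qb) ^ 2, h.hk, ⟨k₀, by rw [hk, mul_comm]⟩, p_ne p,
    fun E θ Δ hB hcv g hg => ?_⟩
  have hitc := it_sub_mem hs hcong' k
  obtain ⟨y, hy, hyb⟩ := core_back All.alx Pool.Agent.H8.HX.pf_PEG hprx
    Pool.Agent.H18.VP.pf_HNX All.nrx hinc hHIL hP h hs'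
    (hcv.congr hitc) (bas_congr hP.irr hitc hB) hg
  refine ⟨y, hy, fun c₁ hc₁ => ?_⟩
  obtain ⟨b', hb', hbt⟩ := hyb c₁ hc₁
  refine ⟨b', hb', fun s M₀ => ?_⟩
  obtain ⟨t, z, x₁, ht, hzw, hz, hgz, hind, hx₁, hle, hgal⟩ := hbt s M₀
  -- the backward orbit
  choose pre hpre using hPRY (N + 1) p H
  obtain ⟨zz, hzz0, hzz1, hzzs⟩ : ∃ zz : ℕ → Fin (N + 1) → O p, zz 0 = z ∧ zz 1 = x₁ ∧
      ∀ j, pmap (fl p H) (zz (j + 1)) = zz j := by
    refine ⟨fun n => Nat.casesOn n z fun j => pre^[j] x₁, rfl, rfl, fun j => ?_⟩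
    cases j with
    | zero => exact hx₁
    | succ j =>
      change pmap (fl p H) (pre^[j + 1] x₁) = pre^[j] x₁
      rw [Function.iterate_succ_apply', hpre]
  have hvb : ∀ j, ∀ q ∈ van (flQ p H) (cO z), q ∈ van (flQ p H) (cO (zz j)) := by
    intro j q hq
    rw [← hzz0] at hq
    exact van_back hPRW p h.hp H zz hzzs j q hq
  obtain ⟨x, hx⟩ : ∃ x : ℕ → Fin (N + 1) → Qb,
      x = fun j i => cO a i + ((p : ℕ) : Qb) ^ 2 * cO (zz j) i := ⟨_, rfl⟩
  have hxj : ∀ j, x j = fun i => cO a i + ((p : ℕ) : Qb) ^ 2 * cO (zz j) i := fun j => by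
    rw [hx]
  have hx0 : x 0 = fun i => cO a i + ((p : ℕ) : Qb) ^ 2 * cO z i := by
    rw [hxj, hzz0]
  have hx1 : x 1 = fun i => cO a i + ((p : ℕ) : Qb) ^ 2 * cO x₁ i := by
    rw [hxj, hzz1]
  have hxP : ∀ j, eval (x j) P = 0 := by
    intro j
    have h1 := hvb j _ (hle _ (Ideal.mem_span_singleton_self _)) 0
    rw [hxj]
    exact (eval_pp P a (cO (zz j))).mp h1
  have horb : ∀ x' : Fin (N + 1) → Qb, eval x' P = 0 → ∀ n,
      (pmap F)^[n] x' = (pmap F')^[n] x' := fun x' hx' n =>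
    (iterate_congr hs.inv hcong' (zer_span.mpr hx') n).symm
  have horb2 : ∀ n, (pmap (it F k))^[n] (x 0) =
      fun i => cO a i + ((p : ℕ) : Qb) ^ 2 * (pmap (flQ p H))^[n] (cO z) i := by
    intro n
    rw [pmap_it_iterate, horb _ (hxP 0), hx0, conj_orb h]
  have hvan : ∀ c, c ∈ van (it F k) (x 0) ↔
      aeval (lt (cO a) (((p : ℕ) : Qb) ^ 2)) c ∈ van (flQ p H) (cO z) := by
    intro c
    rw [mem_van, mem_van]
    refine forall_congr' fun n => ?_
    rw [horb2, eval_lt]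
  have hprime : (van (it F k) (x 0)).IsPrime := by
    have h1 : van (it F k) (x 0) = (van (flQ p H) (cO z)).comap
        (aeval (lt (cO a) (((p : ℕ) : Qb) ^ 2)) : Po (N + 1) Qb →ₐ[Qb] Po (N + 1) Qb) := by
      ext c
      rw [hvan, Ideal.mem_comap]
    have h2 := hprm (N + 1) p H z h.hp
    rw [h1]
    exact Ideal.comap_isPrime _ _
  refine ⟨t, x, ht, fun i => ?_, hxP, fun j => ?_, fun j n => ?_, ?_, hprime,
    ⟨fun c hc => van_aeval hc, fun c hc i => ?_⟩, fun j q hq => ?_, fun x' hx'P hx'x => ?_⟩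
  · rw [hx0]
    simp only
    rw [hzw]
  · rw [horb _ (hxP (j + 1)), hxj (j + 1), conj_pt h]
    have h1 : pmap (flQ p H) (cO (zz (j + 1))) = cO (zz j) := by
      rw [← hzzs j]
      exact pmap_cO (fl p H) (zz (j + 1))
    rw [h1, ← hxj j]
  · rw [horb _ (hxP j), hxj]
    exact h.avo n (zz j)
  · rw [hx0]
    rw [eval_lt] at hgz
    exact hgz
  · rw [hvan]
    refine hind (fun i => aeval (lt (cO a) (((p : ℕ) : Qb) ^ 2)) (c i)) ?_ i
    rw [hvan, map_sum] at hc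
    have h1 : ∀ i : Fin E, aeval (lt (cO a) (((p : ℕ) : Qb) ^ 2))
        (θ ^ (i : ℕ) * aeval (it F k) (c i)) -
        (aeval (lt (cO a) (((p : ℕ) : Qb) ^ 2)) θ) ^ (i : ℕ) *
          aeval (flQ p H) (aeval (lt (cO a) (((p : ℕ) : Qb) ^ 2)) (c i)) ∈
        van (flQ p H) (cO z) := by
      intro i
      rw [conj_aeval h, map_mul, map_pow, ← mul_sub, ← map_sub]
      apply Ideal.mul_mem_left
      have h2 : aeval (it F k) (c i) - aeval (it F' k) (c i) ∈ Ideal.span {P} := by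
        have h3 := aeval_congr hitc (c i)
        rw [← neg_mem_iff, neg_sub]
        exact h3
      rw [← hvan]
      intro n
      exact zer_iterate (hs.it k).inv (zer_span.mpr (hxP 0)) n _ h2
    have h2 := Ideal.sum_mem (van (flQ p H) (cO z)) (t := Finset.univ) fun i _ => h1 i
    rw [Finset.sum_sub_distrib] at h2
    have h3 := Ideal.sub_mem _ hc h2
    rw [sub_sub_cancel] at h3
    exact h3
  · have h1 := hvb j _ ((hvan q).mp hq) 0
    change eval (cO (zz j)) (aeval (lt (cO a) (((p : ℕ) : Qb) ^ 2)) q) = 0 at h1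
    rw [eval_lt] at h1
    rw [hxj]
    exact h1
  · -- transport
    obtain ⟨z₁, hz₁⟩ : ∃ z₁ : Fin (N + 1) → Qb,
        z₁ = fun i => (((p : ℕ) : Qb) ^ 2)⁻¹ * (x' i - cO a i) := ⟨_, rfl⟩
    have hzx : ∀ i, cO a i + ((p : ℕ) : Qb) ^ 2 * z₁ i = x' i := by
      intro i
      rw [hz₁]
      simp only
      rw [← mul_assoc, mul_inv_cancel₀ (p_ne p)]
      ring
    have hzx' : (fun i => cO a i + ((p : ℕ) : Qb) ^ 2 * z₁ i) = x' := funext hzx
    have hz₁P : eval z₁ (pp P a) = 0 := by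
      rw [eval_pp, hzx']
      exact hx'P
    have himg : (pmap F)^[k] x' =
        fun i => cO a i + ((p : ℕ) : Qb) ^ 2 * pmap (flQ p H) z₁ i := by
      rw [horb _ hx'P, ← hzx', conj_pt h]
    have hz₁z : ∀ i : Fin N, pmap (flQ p H) z₁ i.succ = cO z i.succ := by
      intro i
      have h1 := hx'x i
      rw [himg, hx0] at h1
      exact mul_left_cancel₀ (p_ne p) (add_left_cancel h1)
    obtain ⟨σ, hσs, hσa, hσz, hσx⟩ := hgal z₁ _ hz₁P rfl hz₁z
    refine ⟨σ, hσs, fun i => ?_, fun i => ?_⟩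
    · rw [hx0, himg]
      simp only
      rw [map_add, map_mul, map_pow, map_natCast, hσa, hσz]
    · rw [hx1, ← hzx]
      simp only
      rw [map_add, map_mul, map_pow, map_natCast, hσa, hσx]

end Pool.Agent.H18.VP.H42COB

namespace Pool.Agent.H42.TXB

open Pool.Agent.H18.TXB

theorem pf_COB (hPRY : T_PRY Qb) (hPRW : T_PRW Qb) (hHIL : Pool.Agent.H8.TX.T_HIL) : T_COB :=
  Pool.Agent.H18.VP.H42COB.cob hPRY hPRW hHIL

end Pool.Agent.H42.TXB
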